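import Mathlib

/-!
No injective compact operator on an infinite-dimensional Hilbert space is the `L`-asymptotic limit
of a power bounded operator.
-/

open Set Filter Topology
open scoped InnerProductSpace ComplexOrder

namespace Pool.Agent.Results.MP_f651fd_an.NoCompactInjective

/-- The space `ℓ^∞(ℕ)` of bounded complex sequences. -/
abbrev BddSeq : Type := lp (fun _ : ℕ => ℂ) ⊤

/-- Banach limits: positive shift-invariant linear functionals on `ℓ^∞(ℕ)` which are `1` on the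
constant sequence `1`. -/
def IsBanachLimit (L : BddSeq →ₗ[ℂ] ℂ) : Prop :=
  (∀ f : BddSeq, (∀ n, 0 ≤ f n) → 0 ≤ L f) ∧
    (∀ f g : BddSeq, (∀ n, g n = f (n + 1)) → L g = L f) ∧
    ∀ f : BddSeq, (∀ n, f n = 1) → L f = 1

section

variable {H : Type*} [NormedAddCommGroup H] [InnerProductSpace ℂ H]

/-- `T` is power bounded. -/
def PowerBounded (T : H →L[ℂ] H) : Prop := ∃ C : ℝ, ∀ n : ℕ, ‖T ^ n‖ ≤ C

/-- `A` is the `L`-asymptotic limit of `T`: `⟨A x, y⟩ = L (n ↦ ⟨T ^ n x, T ^ n y⟩)` for all `x`, `y`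
(Mathlib's inner product is linear in the second argument). -/
def IsAsymptoticLimit (L : BddSeq →ₗ[ℂ] ℂ) (T A : H →L[ℂ] H) : Prop :=
  ∀ x y : H, ∀ f : BddSeq, (∀ n, f n = ⟪(T ^ n) y, (T ^ n) x⟫_ℂ) → ⟪y, A x⟫_ℂ = L f

lemma proj_bound {D : Submodule ℂ H} [FiniteDimensional ℂ D] (u y : H) (hy : y ∈ D) :
    ‖u‖ ^ 2 - ∑ i, ‖⟪((stdOrthonormalBasis ℂ D) i : H), u⟫_ℂ‖ ^ 2 ≤ ‖u - y‖ ^ 2 := by
  set f := stdOrthonormalBasis ℂ D
  have h1 : ‖u‖ ^ 2 = ‖D.starProjection u‖ ^ 2 + ‖u - D.starProjection u‖ ^ 2 := by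
    have h := norm_add_sq_eq_norm_sq_add_norm_sq_of_inner_eq_zero (D.starProjection u)
      (u - D.starProjection u)
      (Submodule.inner_right_of_mem_orthogonal (Submodule.starProjection_apply_mem D u)
        (Submodule.sub_starProjection_mem_orthogonal u))
    rw [add_sub_cancel] at h
    rw [sq, sq, sq]; exact h
  have h2 : ‖u - y‖ ^ 2 = ‖D.starProjection u - y‖ ^ 2 + ‖u - D.starProjection u‖ ^ 2 := by
    have h := norm_add_sq_eq_norm_sq_add_norm_sq_of_inner_eq_zero (D.starProjection u - y)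
      (u - D.starProjection u)
      (Submodule.inner_right_of_mem_orthogonal
        (D.sub_mem (Submodule.starProjection_apply_mem D u) hy)
        (Submodule.sub_starProjection_mem_orthogonal u))
    rw [sub_add_sub_cancel'] at h
    rw [sq, sq, sq]
    exact h
  have h3 : ‖D.starProjection u‖ ^ 2 = ∑ i, ‖⟪(f i : H), u⟫_ℂ‖ ^ 2 := by
    have h4 := f.sum_sq_norm_inner_right (D.orthogonalProjectionOnto u)
    have h5 : ‖D.starProjection u‖ = ‖D.orthogonalProjectionOnto u‖ := rfl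
    rw [h5, ← h4]
    refine Finset.sum_congr rfl fun i _ => ?_
    rw [Submodule.coe_inner]
    have h6 := Submodule.inner_starProjection_left_eq_right D (f i : H) u
    have h7 : D.starProjection (f i : H) = f i := Submodule.starProjection_eq_self_iff.2 (f i).2
    rw [h7] at h6
    have h8 : (D.orthogonalProjectionOnto u : H) = D.starProjection u := rfl
    rw [h8, h6]
  rw [← h3]
  have h9 : 0 ≤ ‖D.starProjection u - y‖ ^ 2 := by positivity
  linarith

end

/-- On an infinite-dimensional complex Hilbert space `H`, no `L`-asymptotic limit `A` of a power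
bounded operator `T` is both compact and injective, for every Banach limit `L`. -/
theorem result {H : Type*} [NormedAddCommGroup H] [InnerProductSpace ℂ H] [CompleteSpace H]
    (hH : ¬ FiniteDimensional ℂ H) (L : BddSeq →ₗ[ℂ] ℂ) (hL : IsBanachLimit L)
    (T A : H →L[ℂ] H) (hT : PowerBounded T) (hA : IsAsymptoticLimit L T A) :
    ¬ (IsCompactOperator A ∧ Function.Injective A) := by
  rintro ⟨hc, hinj⟩
  obtain ⟨C, hC⟩ := hT
  have hmem : ∀ x y : H, Memℓp (fun n : ℕ => ⟪(T ^ n) y, (T ^ n) x⟫_ℂ) ⊤ := by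
    intro x y
    refine memℓp_infty ⟨(C * ‖y‖) * (C * ‖x‖), ?_⟩
    rintro _ ⟨n, rfl⟩
    have hb : ∀ z : H, ‖(T ^ n) z‖ ≤ C * ‖z‖ := fun z =>
      ((T ^ n).le_opNorm z).trans (by gcongr; exact hC n)
    exact (norm_inner_le_norm _ _).trans
      (mul_le_mul (hb y) (hb x) (norm_nonneg _) ((norm_nonneg _).trans (hb y)))
  set sq : H → H → BddSeq := fun x y => ⟨fun n => ⟪(T ^ n) y, (T ^ n) x⟫_ℂ, hmem x y⟩ with hsqd
  have hsq : ∀ x y n, sq x y n = ⟪(T ^ n) y, (T ^ n) x⟫_ℂ := fun _ _ _ => rfl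
  have hAi : ∀ x y, ⟪y, A x⟫_ℂ = L (sq x y) := fun x y => hA x y _ (fun n => rfl)
  have hAT : ∀ x y, ⟪T y, A (T x)⟫_ℂ = ⟪y, A x⟫_ℂ := by
    intro x y
    rw [hAi, hAi]
    exact hL.2.1 (sq x y) (sq (T x) (T y)) (fun n => by rw [hsq, hsq, pow_succ]; rfl)
  have hself : ∀ z : H, (0 : ℂ) ≤ ⟪z, z⟫_ℂ := by
    intro z
    have h1 : ⟪z, z⟫_ℂ = ((‖z‖ ^ 2 : ℝ) : ℂ) := by
      rw [inner_self_eq_norm_sq_to_K]; norm_cast
    rw [h1]
    exact Complex.zero_le_real.2 (by positivity)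
  have hpos : ∀ x, 0 ≤ ⟪x, A x⟫_ℂ := by
    intro x
    rw [hAi]
    exact hL.1 _ fun n => by rw [hsq]; exact hself _
  have hA0 : 0 ≤ A := by
    rw [ContinuousLinearMap.nonneg_iff_isPositive, ContinuousLinearMap.isPositive_iff_complex]
    intro x
    have h := Complex.nonneg_iff.1 (hpos x)
    have hcj : ⟪A x, x⟫_ℂ = ⟪x, A x⟫_ℂ := by
      rw [← inner_conj_symm]
      exact Complex.conj_eq_iff_im.2 h.2.symm
    rw [hcj]
    refine ⟨?_, h.1⟩
    apply Complex.ext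
    · simp
    · simpa using h.2
  obtain ⟨S, hS⟩ := CStarAlgebra.nonneg_iff_eq_star_mul_self.1 hA0
  have hSS : ∀ x y, ⟪S y, S x⟫_ℂ = ⟪y, A x⟫_ℂ := by
    intro x y
    have : A x = (ContinuousLinearMap.adjoint S) (S x) := by rw [hS]; rfl
    rw [this, ContinuousLinearMap.adjoint_inner_right]
  have hST : ∀ n x y, ⟪S ((T ^ n) y), S ((T ^ n) x)⟫_ℂ = ⟪S y, S x⟫_ℂ := by
    intro n
    induction n with
    | zero => intro x y; simp
    | succ n ih =>
      intro x y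
      have e : ∀ z, (T ^ (n + 1)) z = T ((T ^ n) z) := fun z => by rw [pow_succ']; rfl
      rw [e, e, hSS, hAT, ← hSS, ih]
  have hSinj : Function.Injective S := by
    intro x y hxy
    apply hinj
    rw [hS]
    change (star S) (S x) = (star S) (S y)
    rw [hxy]
  -- a finite net
  obtain ⟨W, hWfin, hWball, hWnet⟩ : ∃ W : Set H, W.Finite ∧ (∀ w ∈ W, ‖w‖ ≤ 1) ∧
      ∀ z : H, ‖z‖ ≤ 1 → ∃ w ∈ W, ‖S z - S w‖ ^ 2 ≤ 1 / 2 := by
    have h1 : IsCompact (closure (A '' Metric.closedBall 0 1)) :=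
      hc.isCompact_closure_image_closedBall (f := (A : H →ₗ[ℂ] H)) 1
    have h2 : TotallyBounded (A '' Metric.closedBall 0 1) :=
      h1.totallyBounded.subset subset_closure
    obtain ⟨t, ht1, ht2, ht3⟩ := Metric.finite_approx_of_totallyBounded h2 (1 / 4) (by norm_num)
    have ht1' : ∀ y ∈ t, ∃ x, x ∈ Metric.closedBall (0 : H) 1 ∧ A x = y := fun y hy => ht1 hy
    choose! p hp using ht1'
    refine ⟨p '' t, ht2.image p, ?_, ?_⟩
    · rintro _ ⟨y, hy, rfl⟩
      simpa using (hp y hy).1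
    · intro z hz
      have h4 := ht3 ⟨z, by simpa using hz, rfl⟩
      simp only [mem_iUnion, Metric.mem_ball, exists_prop] at h4
      obtain ⟨y, hy, hyz⟩ := h4
      refine ⟨p y, ⟨y, hy, rfl⟩, ?_⟩
      have h5 : A (p y) = y := (hp y hy).2
      have h6 : ‖p y‖ ≤ 1 := by simpa using (hp y hy).1
      have h7 : ‖A (z - p y)‖ < 1 / 4 := by
        rw [map_sub, h5, ← dist_eq_norm]; exact hyz
      have h8 : ((‖S (z - p y)‖ ^ 2 : ℝ) : ℂ) = ⟪z - p y, A (z - p y)⟫_ℂ := by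
        rw [← hSS, inner_self_eq_norm_sq_to_K]; norm_cast
      have h9 : ‖S (z - p y)‖ ^ 2 ≤ ‖z - p y‖ * ‖A (z - p y)‖ := by
        have := norm_inner_le_norm (𝕜 := ℂ) (z - p y) (A (z - p y))
        rw [← h8, Complex.norm_real, Real.norm_of_nonneg (by positivity)] at this
        exact this
      have h10 : ‖z - p y‖ ≤ 2 := (norm_sub_le _ _).trans (by linarith)
      rw [← map_sub]
      calc ‖S (z - p y)‖ ^ 2 ≤ ‖z - p y‖ * ‖A (z - p y)‖ := h9
        _ ≤ 2 * (1 / 4) := mul_le_mul h10 h7.le (norm_nonneg _) (by norm_num)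
        _ = 1 / 2 := by norm_num
  set D : Submodule ℂ H := Submodule.span ℂ (S '' W) with hD
  have : FiniteDimensional ℂ D := FiniteDimensional.span_of_finite ℂ (hWfin.image S)
  set f := stdOrthonormalBasis ℂ D with hf
  obtain ⟨d, hd⟩ : ∃ d : ℕ, Module.finrank ℂ D = d := ⟨_, rfl⟩
  -- the estimate for all vectors
  have key : ∀ z : H, ‖S z‖ ^ 2 - ∑ i, ‖⟪(f i : H), S z⟫_ℂ‖ ^ 2 ≤ 1 / 2 * ‖z‖ ^ 2 := by
    intro z
    rcases eq_or_ne z 0 with rfl | hz
    · simp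
    have hz' : 0 < ‖z‖ := norm_pos_iff.2 hz
    obtain ⟨w, hw, hw'⟩ := hWnet (((‖z‖⁻¹ : ℝ) : ℂ) • z) (by
      rw [norm_smul, Complex.norm_real, Real.norm_of_nonneg (by positivity),
        inv_mul_cancel₀ hz'.ne'])
    have h1 := proj_bound (D := D) (S z) (((‖z‖ : ℝ) : ℂ) • S w)
      (D.smul_mem _ (Submodule.subset_span ⟨w, hw, rfl⟩))
    refine h1.trans ?_
    have h2 : S z - ((‖z‖ : ℝ) : ℂ) • S w =
        ((‖z‖ : ℝ) : ℂ) • (S (((‖z‖⁻¹ : ℝ) : ℂ) • z) - S w) := by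
      have h3 : ((‖z‖ : ℝ) : ℂ) * ((‖z‖⁻¹ : ℝ) : ℂ) = 1 := by
        rw [← Complex.ofReal_mul, mul_inv_cancel₀ hz'.ne', Complex.ofReal_one]
      rw [smul_sub, map_smul, smul_smul, h3, one_smul]
    rw [h2, norm_smul, Complex.norm_real, Real.norm_of_nonneg (norm_nonneg _), mul_pow]
    nlinarith [sq_nonneg ‖z‖]
  -- many vectors with orthonormal images
  set K := 2 * d + 1 with hK
  obtain ⟨x, hx⟩ : ∃ x : Fin K → H, Orthonormal ℂ fun k => S (x k) := by
    have hinf : ¬ FiniteDimensional ℂ (LinearMap.range (S : H →ₗ[ℂ] H)) := by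
      intro hfd
      apply hH
      exact (LinearEquiv.ofInjective (S : H →ₗ[ℂ] H) hSinj).symm.finiteDimensional
    obtain ⟨v, hv⟩ : ∃ v : Fin K → LinearMap.range (S : H →ₗ[ℂ] H), LinearIndependent ℂ v := by
      have h1 : (K : Cardinal) ≤ Module.rank ℂ (LinearMap.range (S : H →ₗ[ℂ] H)) := by
        have : Cardinal.aleph0 ≤ Module.rank ℂ (LinearMap.range (S : H →ₗ[ℂ] H)) := by
          rw [← not_lt]; intro h; exact hinf (Module.rank_lt_aleph0_iff.1 h)
        exact (Cardinal.natCast_lt_aleph0 (n := K)).le.trans this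
      obtain ⟨s, hs1, hs2⟩ := le_rank_iff_exists_linearIndependent_finset.1 h1
      have e : Fin K ≃ s := (Fintype.equivFinOfCardEq (by simpa using hs1)).symm
      exact ⟨fun k => (e k : LinearMap.range (S : H →ₗ[ℂ] H)), hs2.comp e e.injective⟩
    set U : Submodule ℂ (LinearMap.range (S : H →ₗ[ℂ] H)) := Submodule.span ℂ (Set.range v)
    have : FiniteDimensional ℂ U := FiniteDimensional.span_of_finite ℂ (Set.finite_range v)
    have hfr : Module.finrank ℂ U = K := by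
      rw [finrank_span_eq_card hv, Fintype.card_fin]
    set g := (stdOrthonormalBasis ℂ U).reindex (finCongr hfr) with hg
    have hgr : ∀ k, ∃ x : H, S x = ((g k : LinearMap.range (S : H →ₗ[ℂ] H)) : H) := fun k =>
      (g k : LinearMap.range (S : H →ₗ[ℂ] H)).2
    choose x hx using hgr
    refine ⟨x, ?_⟩
    have h2 : Orthonormal ℂ fun k => ((g k : LinearMap.range (S : H →ₗ[ℂ] H)) : H) := by
      have h3 := g.orthonormal
      rw [orthonormal_iff_ite] at h3 ⊢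
      intro i j
      exact h3 i j
    have h4 : (fun k => S (x k)) = fun k => ((g k : LinearMap.range (S : H →ₗ[ℂ] H)) : H) :=
      funext hx
    rw [h4]; exact h2
  -- the estimate for the orbits
  have horb : ∀ n, 2 * ((K : ℝ) - d) ≤ ∑ k, ‖(T ^ n) (x k)‖ ^ 2 := by
    intro n
    have ho : Orthonormal ℂ fun k => S ((T ^ n) (x k)) := by
      rw [orthonormal_iff_ite] at hx ⊢
      intro i j
      rw [hST]; exact hx i j
    have h1 : ∑ k, (‖S ((T ^ n) (x k))‖ ^ 2 - ∑ i, ‖⟪(f i : H), S ((T ^ n) (x k))⟫_ℂ‖ ^ 2) ≤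
        ∑ k, 1 / 2 * ‖(T ^ n) (x k)‖ ^ 2 := Finset.sum_le_sum fun k _ => key _
    rw [Finset.sum_sub_distrib, Finset.sum_comm] at h1
    have h2 : ∑ k, ‖S ((T ^ n) (x k))‖ ^ 2 = (K : ℝ) := by
      have : ∀ k, ‖S ((T ^ n) (x k))‖ ^ 2 = 1 := fun k => by rw [ho.1 k]; norm_num
      rw [Finset.sum_congr rfl (fun k _ => this k)]; simp
    have h3 : ∑ i, ∑ k, ‖⟪(f i : H), S ((T ^ n) (x k))⟫_ℂ‖ ^ 2 ≤
        ∑ _i : Fin (Module.finrank ℂ D), (1 : ℝ) := by
      refine Finset.sum_le_sum fun i _ => ?_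
      have h4 := ho.sum_inner_products_le (f i : H) (s := Finset.univ)
      have h5 : ‖(f i : H)‖ = 1 := by
        have := f.orthonormal.1 i
        exact this
      rw [h5, one_pow] at h4
      refine le_trans (le_of_eq ?_) h4
      refine Finset.sum_congr rfl fun k _ => ?_
      rw [norm_inner_symm]
    rw [← Finset.mul_sum] at h1
    simp only [Finset.sum_const, Finset.card_univ, Fintype.card_fin, nsmul_eq_mul, mul_one] at h3
    have h6 : ((Module.finrank ℂ D : ℕ) : ℝ) = d := by rw [hd]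
    rw [h2] at h1
    linarith
  -- apply the Banach limit
  have hone : Memℓp (fun _ : ℕ => (1 : ℂ)) ⊤ := by
    refine memℓp_infty ⟨1, ?_⟩
    rintro _ ⟨n, rfl⟩
    simp
  set e : BddSeq := ⟨fun _ => 1, hone⟩ with he
  have hLe : L e = 1 := hL.2.2 e fun n => rfl
  set F : BddSeq := ∑ k, sq (x k) (x k) - ((2 * ((K : ℝ) - d) : ℝ) : ℂ) • e with hF
  have hFn : ∀ n, F n = ((∑ k, ‖(T ^ n) (x k)‖ ^ 2 - 2 * ((K : ℝ) - d) : ℝ) : ℂ) := by
    intro n
    have h1 : F n = ∑ k, (sq (x k) (x k)) n - ((2 * ((K : ℝ) - d) : ℝ) : ℂ) * 1 := by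
      rw [hF]
      rw [lp.coeFn_sub, Pi.sub_apply, lp.coeFn_smul, Pi.smul_apply]
      rw [lp.coeFn_sum, Finset.sum_apply]
      rfl
    rw [h1]
    push_cast
    congr 1
    · refine Finset.sum_congr rfl fun k _ => ?_
      rw [hsq, inner_self_eq_norm_sq_to_K]; norm_cast
    · ring
  have hF0 : 0 ≤ L F := by
    refine hL.1 F fun n => ?_
    rw [hFn]
    have := horb n
    have h2 : (0 : ℝ) ≤ ∑ k, ‖(T ^ n) (x k)‖ ^ 2 - 2 * ((K : ℝ) - d) := by linarith
    exact Complex.zero_le_real.2 h2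
  have hLF : L F = (K : ℂ) - ((2 * ((K : ℝ) - d) : ℝ) : ℂ) := by
    rw [hF, map_sub, map_sum, map_smul, hLe, smul_eq_mul, mul_one]
    congr 1
    have : ∀ k, L (sq (x k) (x k)) = 1 := by
      intro k
      rw [← hAi, ← hSS, inner_self_eq_norm_sq_to_K, hx.1 k]; simp
    simp [this]
  rw [hLF] at hF0
  have h1 : (0 : ℝ) ≤ (K : ℝ) - 2 * ((K : ℝ) - d) := by
    have : (K : ℂ) - ((2 * ((K : ℝ) - d) : ℝ) : ℂ) = (((K : ℝ) - 2 * ((K : ℝ) - d) : ℝ) : ℂ) := by
      push_cast; ring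
    rw [this] at hF0
    exact Complex.zero_le_real.1 hF0
  have h2 : (K : ℝ) = 2 * d + 1 := by rw [hK]; push_cast; ring
  rw [h2] at h1
  linarith

end Pool.Agent.Results.MP_f651fd_an.NoCompactInjective
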